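import Mathlib
import Pool.Agent.H89.CD.Pred

/-!
# `Ext ^ 2` of mixed `l`-adic representations of number fields is of uncountable dimension

Let `F` be a number field and `l` a prime. In the abelian category of the mixed `l`-adic representations
of the absolute Galois group of `F` which belong to an admissible class `𝒜` (for example the class of
the representations which are potentially semistable at all places above `l`) let `X` be any object
`≠ 0`, for example `X = ℚ_l(n)`. There is a class `f` in `Ext ^ 1 (X(1), X(2))` and there are classes
`e x` in `Ext ^ 1 (X, X(1))`, indexed by the sequences `x` of zeros and ones, such that the products of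
the `e x` with `f` are linearly independent in `Ext ^ 2 (X, X(2))`; so the dimension of
`Ext ^ 2 (X, X(2))` over `ℚ_l` is at least the cardinality of the continuum. (For `X ≠ ℚ_l(n)` it is used
that the class `𝒜` is closed under tensor products with the extensions of `ℚ_l` by `ℚ_l(1)` which split
at the places above `l`.) In particular no object `X ≠ 0` has projective dimension at most `1`. The same
holds in the smaller category of the representations whose graded quotients for the weight filtration
are semisimple (`MixedSS 𝒜`), and in every full subcategory `P` of the category of `l`-adic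
representations which is closed under subobjects, quotients and finite direct sums and contains the
extensions of sums of `ℚ_l(n)` by sums of `ℚ_l(n + 1)` that are direct sums of `ℚ_l(m)` at all places
above `l` (`IsGood P`).

The proof. A tree of primes is constructed: primes `P_i` and `Q_i` for all `i` and primes `R_i(T)` for
all `T ⊆ {0, …, i}` such that for every set `S` of natural numbers the infinite product
`α_S = ∏ (P_i ^ [i ∈ S] R_i(S ∩ {0, …, i})) ^ (l ^ i)` and `β = ∏ Q_i ^ (l ^ i)` are `1` in the `l`-adic
numbers, and the order of `β` modulo `P_i` is at least `l ^ (2 i + 1)`. The sets `S_x` of the (codes of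
the) initial segments of the sequences `x : ℕ → {0, 1}` are almost disjoint. If a linear combination
`∑ c_x α_x ∪ β`, with the Kummer classes of the `α_{S_x}` and of `β`, were zero in `Ext ^ 2 (X, X(2))`,
there would be a representation with the graded pieces `X`, `X(1)`, `X(2)`. The trace of its component
`X → X(2)` gives a continuous cochain `C` with values in `ℚ_l(2)` whose coboundary is `dim X` times the
cup product, and the relation between Frobenius and tame inertia at `P_i` for `i ∈ S_x` (not in the
other sets) shows that `C` takes a value of the norm at least a constant times `l ^ (i + 1) |c_x|`, which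
is impossible since the Galois group is compact. The linear structure on `Ext ^ 2` is compared with the
linear structure on the space of cocycles by means of an extension of `X` by `X(1) ^ 2`.
-/

set_option autoImplicit false

universe w

open CategoryTheory Abelian Pool.Agent.N491.CD Pool.Agent.H89.CD

namespace Pool.Agent.Results.MP_5968e7_ag.ExtTwoInfinite

section cat

variable {F : Type} [Field F] [NumberField F] {l : ℕ} [Fact l.Prime]
  (P : ObjectProperty (Reps F l)) [IsGood P]

/-- the full subcategory given by `P` -/
def Obj : Type 1 := P.FullSubcategory

/-- the representation underlying an object of the subcategory -/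
def Obj.rep {P : ObjectProperty (Reps F l)} (X : Obj P) : Reps F l :=
  ObjectProperty.FullSubcategory.obj X

noncomputable instance instCat : Category.{0} (Obj P) := ObjectProperty.FullSubcategory.category P

noncomputable instance instAb : Abelian (Obj P) := abP P

noncomputable instance instLin : Linear ℚ_[l] (Obj P) := linP P

variable [HasExt.{w} (Obj P)]

/-- There are a class `f` in `Ext ^ 1 (X(1), X(2))` and a family of classes `e x` in
`Ext ^ 1 (X, X(1))`, indexed by the sequences `x` of zeros and ones, such that the products of the `e x`
with `f` in `Ext ^ 2 (X, X(2))` are linearly independent over `ℚ_l`. Here `M` and `Y` are objects which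
are isomorphic to `X(1)` and `X(2)`. All groups `Ext` are computed in the full subcategory `P`. In
particular the dimension of `Ext ^ 2 (X, X(2))` is at least the cardinality of the continuum. -/
def UncountableExtTwo (X : Obj P) : Prop :=
  ∃ (M Y : Obj P) (e : (ℕ → Bool) → Ext.{w} X M 1) (f : Ext.{w} M Y 1),
    IsTwistOf X.rep.ρ M.rep.ρ ∧ IsTwistOf M.rep.ρ Y.rep.ρ ∧
    LinearIndependent ℚ_[l] fun x => (e x).comp f (rfl : 1 + 1 = 2)

/-- the statement for the objects `ℚ_l(n)` -/
def ForTateObjects : Prop :=
  ∀ n : ℤ, ∃ X : Obj P, X.rep = Tate F l n ∧ UncountableExtTwo.{w} P X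

/-- the statement for all objects `≠ 0` -/
def ForAllObjects : Prop :=
  ∀ X : Obj P, Nontrivial X.rep → UncountableExtTwo.{w} P X

theorem tate_objects : ForTateObjects.{w} P := by
  intro n
  have : HasExt.{w} P.FullSubcategory := ‹HasExt.{w} (Obj P)›
  obtain ⟨e, f, h⟩ := exists_family.{w} P n (n + 1) (n + 1 + 1) rfl rfl
  exact ⟨_, rfl, _, _, e, f, isTwistOf_Tate n, isTwistOf_Tate (n + 1), h⟩

theorem all_objects [IsExClosed P] : ForAllObjects.{w} P := by
  intro X hX
  have : HasExt.{w} P.FullSubcategory := ‹HasExt.{w} (Obj P)›
  let X' : P.FullSubcategory := X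
  have : Nontrivial X'.obj := hX
  obtain ⟨e, f, h⟩ := exists_family_V.{w} X'
  exact ⟨_, _, e, f, isTwistOf_Tw1 _, isTwistOf_Tw1 _, h⟩

end cat

theorem result (F : Type) [Field F] [NumberField F] (l : ℕ) [Fact l.Prime] :
    -- the mixed representations in the class `𝒜`
    (∀ (𝒜 : ObjectProperty (Reps F l)) [IsAdmissible 𝒜] [HasExt.{w} (Obj (Mixed 𝒜))],
      ForTateObjects.{w} (Mixed 𝒜) ∧ (IsKummerClosed 𝒜 → ForAllObjects.{w} (Mixed 𝒜))) ∧
    -- the mixed representations in the class `𝒜` with semisimple graded quotients
    (∀ (𝒜 : ObjectProperty (Reps F l)) [IsAdmissible 𝒜] [HasExt.{w} (Obj (MixedSS 𝒜))],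
      ForTateObjects.{w} (MixedSS 𝒜) ∧ (IsKummerClosed 𝒜 → ForAllObjects.{w} (MixedSS 𝒜))) ∧
    -- an arbitrary full subcategory
    (∀ (P : ObjectProperty (Reps F l)) [IsGood P] [HasExt.{w} (Obj P)],
      ForTateObjects.{w} P ∧ (IsKummerClosed P → ForAllObjects.{w} P)) := by
  refine ⟨fun 𝒜 _ _ => ⟨tate_objects _, fun h => ?_⟩, fun 𝒜 _ _ => ⟨tate_objects _, fun h => ?_⟩,
    fun P _ _ => ⟨tate_objects _, fun h => ?_⟩⟩
  · have := h.isExClosed
    exact all_objects _
  · have := h.isExClosed
    exact all_objects _
  · have := h.isExClosed
    exact all_objects _

end Pool.Agent.Results.MP_5968e7_ag.ExtTwoInfinite
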